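import Pool.Agent.X76.PM13

set_option autoImplicit false

/-!
Total colourings of multigraphs with a small core.

A loopless multigraph with vertex set `V` is given by the numbers `z x y` of edges between `x` and
`y`.

Proof idea.  Add a new vertex for every part of `A` and join it to the vertices of the part by single
edges.  The theorem of Vizing (or its common generalization with Shannon's theorem, proved here) gives
an edge colouring with `D + 1 + t` colours; the vertices of `A` get the colours of the new edges.  The
other vertices are coloured one after the other: at least `t + 1` colours are not used by the edges at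
the vertex, and at most `t` of them are the colours of its neighbours.
-/

namespace Pool.Agent.Results.MP_f06681_co.SmallCore

open Finset

/-- The multigraph `z` has a total colouring with `k` colours: the edges of the colour `c` join `x` and
`φ c x` (`φ c x = x` if no edge of the colour `c` is at `x`), and the colour of the vertex `x` is
`κ x`. -/
def TotalColourable {V : Type} (k : ℕ) (z : V → V → ℕ) : Prop :=
  ∃ (φ : Fin k → V → V) (κ : V → Fin k), (∀ c x, φ c (φ c x) = x) ∧
    (∀ x y, x ≠ y → Nat.card {c // φ c x = y} = z x y) ∧ (∀ x, φ (κ x) x = x) ∧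
    ∀ x y, z x y ≠ 0 → κ x ≠ κ y

/-- **Total colourings of multigraphs with a small core.**  Let `z` be a loopless multigraph of
maximum degree at most `D`, and `t ≥ 1` such that every multiplicity is at most `t` or at least
`D + 1 - t`.  Let `A` be a set of vertices, divided into parts (given by `f`) with at most `D + 1`
vertices and without edges between different parts, such that the other vertices can be removed one
after the other, each of them having at most `t` neighbours among the vertices present.  Then `z` has
a total colouring with `D + t + 1` colours. -/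
theorem result (V : Type) [Fintype V] (z : V → V → ℕ) (hs : ∀ x y, z x y = z y x)
    (h0 : ∀ x, z x x = 0) (D t : ℕ) (ht : 1 ≤ t) (hd : ∀ x, ∑ y, z x y ≤ D)
    (hz : ∀ x y, x ≠ y → z x y ≤ t ∨ D + 1 ≤ z x y + t) (A : Finset V) (f : V → V)
    (hA : ∀ i, {x | x ∈ A ∧ f x = i}.ncard ≤ D + 1)
    (hA' : ∀ x ∈ A, ∀ y ∈ A, z x y ≠ 0 → f x = f y)
    (hcore : ∀ B : Finset V, A ⊂ B → ∃ v ∈ B, v ∉ A ∧ (B.filter fun y => z v y ≠ 0).card ≤ t) :
    TotalColourable (D + t + 1) z := by
  classical
  let z' : V ⊕ V → V ⊕ V → ℕ := fun p q => match p, q with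
    | Sum.inl x, Sum.inl y => z x y
    | Sum.inl x, Sum.inr i => if x ∈ A ∧ f x = i then 1 else 0
    | Sum.inr i, Sum.inl y => if y ∈ A ∧ f y = i then 1 else 0
    | Sum.inr _, Sum.inr _ => 0
  obtain ⟨φ', h1, h2⟩ := Pool.Agent.X76.PM.mshannon z' (by
      rintro (x | i) (y | j)
      · exact hs x y
      · rfl
      · rfl
      · rfl)
    (by
      rintro (x | i)
      · exact h0 x
      · rfl) t (D + 1) (by
      rintro (x | i) (y | j) hxy
      · exact hz x y (fun h => hxy (by rw [h]))
      · left
        show (if x ∈ A ∧ f x = j then 1 else 0) ≤ t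
        split_ifs <;> omega
      · left
        show (if y ∈ A ∧ f y = i then 1 else 0) ≤ t
        split_ifs <;> omega
      · left
        exact Nat.zero_le _)
    (by
      rintro (x | i)
      · rw [Fintype.sum_sum_type]
        show ∑ y, z x y + ∑ i, (if x ∈ A ∧ f x = i then 1 else 0) ≤ D + 1
        apply Nat.add_le_add (hd x)
        rw [← Finset.card_filter, Finset.card_le_one]
        intro a ha b hb
        rw [mem_filter] at ha hb
        exact ha.2.2.symm.trans hb.2.2
      · rw [Fintype.sum_sum_type]
        show ∑ y, (if y ∈ A ∧ f y = i then 1 else 0) + ∑ _j : V, 0 ≤ D + 1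
        rw [Finset.sum_const_zero, add_zero, ← Finset.card_filter]
        refine le_trans (le_of_eq ?_) (hA i)
        rw [← Set.ncard_coe_finset]
        congr 1
        ext y
        simp)
  have hk : D + t + 1 = D + 1 + t := by omega
  rw [hk]
  let φ : Fin (D + 1 + t) → V → V := fun c x => match φ' c (Sum.inl x) with
    | Sum.inl y => y
    | Sum.inr _ => x
  have hφs : ∀ c x y, φ' c (Sum.inl x) = Sum.inl y → φ c x = y := by
    intro c x y h
    simp only [φ, h]
  have hφn : ∀ c x i, φ' c (Sum.inl x) = Sum.inr i → φ c x = x := by
    intro c x i h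
    simp only [φ, h]
  have hφ : ∀ c x, φ c (φ c x) = x := by
    intro c x
    cases h : φ' c (Sum.inl x) with
    | inr i => rw [hφn c x i h, hφn c x i h]
    | inl y =>
      rw [hφs c x y h]
      apply hφs
      rw [← h, h1]
  have hcount : ∀ x y, x ≠ y → (univ.filter fun c => φ c x = y).card = z x y := by
    intro x y hxy
    have h3 := h2 (Sum.inl x) (Sum.inl y) (by simpa using hxy)
    refine Eq.trans ?_ h3
    congr 1
    ext c
    simp only [mem_filter, mem_univ, true_and]
    constructor
    · intro h
      cases h' : φ' c (Sum.inl x) with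
      | inr i => rw [hφn c x i h'] at h; exact absurd h hxy
      | inl w => rw [hφs c x w h'] at h; rw [h]
    · intro h
      exact hφs c x y h
  have hfree : ∀ x, t + 1 ≤ (univ.filter fun c => φ c x = x).card := by
    intro x
    have h3 : ∑ y, (univ.filter fun c => φ c x = y).card = D + 1 + t := by
      simp_rw [Finset.card_filter]
      rw [Finset.sum_comm]
      simp
    rw [← Finset.add_sum_erase univ _ (mem_univ x)] at h3
    have h4 : ∑ y ∈ univ.erase x, (univ.filter fun c => φ c x = y).card ≤ D := by
      refine le_trans ?_ (hd x)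
      rw [Finset.sum_congr rfl fun y hy => hcount x y (Finset.ne_of_mem_erase hy).symm]
      exact Finset.sum_le_sum_of_subset (Finset.erase_subset _ _)
    omega
  -- the vertices of `A`
  have hA1 : ∀ x, ∃ c, x ∈ A → φ' c (Sum.inl x) = Sum.inr (f x) := by
    intro x
    by_cases hx : x ∈ A
    · have h3 := h2 (Sum.inl x) (Sum.inr (f x)) (by simp)
      have h4 : z' (Sum.inl x) (Sum.inr (f x)) = 1 := if_pos ⟨hx, rfl⟩
      rw [h4] at h3
      obtain ⟨c, hc⟩ := Finset.card_eq_one.1 h3
      have h5 : c ∈ univ.filter (fun c => φ' c (Sum.inl x) = Sum.inr (f x)) := by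
        rw [hc]; exact mem_singleton_self _
      exact ⟨c, fun _ => (mem_filter.1 h5).2⟩
    · exact ⟨⟨0, by omega⟩, fun h => absurd h hx⟩
  choose κ0 hκ0 using hA1
  have hext : ∀ n, ∀ B : Finset V, A ⊆ B → B.card = n → ∃ κ : V → Fin (D + 1 + t),
      (∀ x ∈ B, φ (κ x) x = x) ∧ ∀ x ∈ B, ∀ y ∈ B, z x y ≠ 0 → κ x ≠ κ y := by
    intro n
    induction n using Nat.strong_induction_on with
    | _ n ih =>
      intro B hAB hn
      by_cases hB : A = B
      · subst hB
        refine ⟨κ0, fun x hx => hφn _ _ _ (hκ0 x hx), ?_⟩
        intro x hx y hy hxy heq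
        have h3 := hκ0 x hx
        have h4 := hκ0 y hy
        rw [← heq, ← hA' x hx y hy hxy] at h4
        have h5 : φ' (κ0 x) (φ' (κ0 x) (Sum.inl x)) = φ' (κ0 x) (φ' (κ0 x) (Sum.inl y)) := by
          rw [h3, h4]
        rw [h1, h1] at h5
        have h6 := Sum.inl.inj h5
        rw [h6, h0] at hxy
        exact hxy rfl
      · obtain ⟨v, hvB, hvA, hv⟩ := hcore B (Finset.ssubset_iff_subset_ne.2 ⟨hAB, hB⟩)
        have hpos := Finset.card_pos.2 ⟨v, hvB⟩
        obtain ⟨κ, hκ1, hκ2⟩ := ih (n - 1) (by omega) (B.erase v)
          (fun x hx => mem_erase.2 ⟨fun h => hvA (h ▸ hx), hAB hx⟩)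
          (by rw [Finset.card_erase_of_mem hvB, hn])
        obtain ⟨c, hc1, hc2⟩ : ∃ c, φ c v = v ∧ c ∉ (B.filter fun y => z v y ≠ 0).image κ := by
          by_contra hno
          push Not at hno
          have h3 : (univ.filter fun c => φ c v = v) ⊆ (B.filter fun y => z v y ≠ 0).image κ := by
            intro c hc
            exact hno c (mem_filter.1 hc).2
          have h4 := Finset.card_le_card h3
          have h5 := Finset.card_image_le (s := B.filter fun y => z v y ≠ 0) (f := κ)
          have h6 := hfree v
          omega
        have hc3 : ∀ y ∈ B, z v y ≠ 0 → κ y ≠ c := by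
          intro y hy hvy heq
          exact hc2 (mem_image.2 ⟨y, mem_filter.2 ⟨hy, hvy⟩, heq⟩)
        refine ⟨Function.update κ v c, ?_, ?_⟩
        · intro x hx
          by_cases hxv : x = v
          · rw [hxv, Function.update_self]; exact hc1
          · rw [Function.update_of_ne hxv]
            exact hκ1 x (mem_erase.2 ⟨hxv, hx⟩)
        · intro x hx y hy hxy
          by_cases hxv : x = v
          · have hyv : y ≠ v := by
              rintro rfl
              rw [hxv, h0] at hxy
              exact hxy rfl
            rw [hxv, Function.update_self, Function.update_of_ne hyv]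
            exact (hc3 y hy (by rw [← hxv]; exact hxy)).symm
          · by_cases hyv : y = v
            · rw [hyv, Function.update_self, Function.update_of_ne hxv]
              exact hc3 x hx (by rw [← hyv, hs y x]; exact hxy)
            · rw [Function.update_of_ne hxv, Function.update_of_ne hyv]
              exact hκ2 x (mem_erase.2 ⟨hxv, hx⟩) y (mem_erase.2 ⟨hyv, hy⟩) hxy
  obtain ⟨κ, hκ1, hκ2⟩ := hext _ univ (Finset.subset_univ _) rfl
  refine ⟨φ, κ, hφ, ?_, fun x => hκ1 x (mem_univ _), fun x y => hκ2 x (mem_univ _) y (mem_univ _)⟩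
  intro x y hxy
  rw [← hcount x y hxy, Nat.card_eq_fintype_card, Fintype.card_subtype]

end Pool.Agent.Results.MP_f06681_co.SmallCore
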